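import Pool.Agent.H82.AS.Targets

set_option autoImplicit false

open Pool.Agent.H38.RB Pool.Agent.H38.PS Pool.Agent.H82.AS
open MeasureTheory

namespace Pool.Agent.H50.AS

/-- the beta integral (proof of H39/TO/BET) -/
theorem beta_real {a b : ℝ} (ha : 0 < a) (hb : 0 < b) :
    ∫ s in Set.Ioo (0 : ℝ) 1, s ^ (a - 1) * (1 - s) ^ (b - 1) =
      Real.Gamma a * Real.Gamma b / Real.Gamma (a + b) := by
  have ha' : 0 < (a : ℂ).re := by simpa using ha
  have hb' : 0 < (b : ℂ).re := by simpa using hb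
  have he : ∀ s ∈ Set.Ioo (0 : ℝ) 1, (s : ℂ) ^ ((a : ℂ) - 1) * (1 - (s : ℂ)) ^ ((b : ℂ) - 1) =
      ((s ^ (a - 1) * (1 - s) ^ (b - 1) : ℝ) : ℂ) := by
    intro s hs
    have h1 : (0 : ℝ) ≤ s := hs.1.le
    have h2 : (0 : ℝ) ≤ 1 - s := by linarith [hs.2]
    rw [Complex.ofReal_mul, Complex.ofReal_cpow h1, Complex.ofReal_cpow h2]
    push_cast
    rfl
  have h1 : ((∫ s in Set.Ioo (0 : ℝ) 1, s ^ (a - 1) * (1 - s) ^ (b - 1) : ℝ) : ℂ)
      = Complex.betaIntegral a b := by
    rw [Complex.betaIntegral, intervalIntegral.integral_of_le zero_le_one,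
      integral_Ioc_eq_integral_Ioo, setIntegral_congr_fun measurableSet_Ioo he]
    exact integral_ofReal.symm
  have h2 := Complex.Gamma_mul_Gamma_eq_betaIntegral ha' hb'
  rw [← h1, ← Complex.ofReal_add, Complex.Gamma_ofReal, Complex.Gamma_ofReal,
    Complex.Gamma_ofReal, ← Complex.ofReal_mul, ← Complex.ofReal_mul] at h2
  have h3 := Complex.ofReal_injective h2
  rw [eq_div_iff (Real.Gamma_pos_of_pos (add_pos ha hb)).ne', h3, mul_comm]

theorem img : (fun s : ℝ => s / (1 - s)) '' Set.Ioo 0 1 = Set.Ioi 0 := by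
  ext t
  constructor
  · rintro ⟨s, hs, rfl⟩
    exact div_pos hs.1 (by linarith [hs.2])
  · intro ht
    have ht' : (0 : ℝ) < t := ht
    refine ⟨t / (1 + t), ⟨by positivity, ?_⟩, ?_⟩
    · rw [div_lt_one (by positivity)]
      linarith
    · change t / (1 + t) / (1 - t / (1 + t)) = t
      have : (1 : ℝ) + t ≠ 0 := by positivity
      have h2 : 1 - t / (1 + t) = 1 / (1 + t) := by
        field_simp
        ring
      rw [h2]
      field_simp

theorem pf_BET : T_BET := by
  unfold T_BET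
  rw [← img, integral_image_eq_integral_abs_deriv_smul measurableSet_Ioo
    (f' := fun s => 1 / (1 - s) ^ 2) (fun s hs => ?_) ?_]
  · rw [setIntegral_congr_fun (g := fun s : ℝ => s ^ ((1 / 3 : ℝ) - 1) * (1 - s) ^ ((1 / 3 : ℝ) - 1))
      measurableSet_Ioo (fun s hs => ?_)]
    · rw [beta_real (by norm_num) (by norm_num), pow_two]
      norm_num
    · have h0 : 0 < s := hs.1
      have h1 : 0 < 1 - s := by linarith [hs.2]
      change |1 / (1 - s) ^ 2| • (s / (1 - s) * (1 + s / (1 - s))) ^ (-(2 / 3) : ℝ) =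
        s ^ ((1 / 3 : ℝ) - 1) * (1 - s) ^ ((1 / 3 : ℝ) - 1)
      have e1 : s / (1 - s) * (1 + s / (1 - s)) = s / (1 - s) ^ 2 := by
        field_simp
        ring
      rw [e1, abs_of_pos (by positivity), smul_eq_mul, Real.div_rpow h0.le (by positivity),
        show ((1 : ℝ) / 3 - 1) = -(2 / 3) by norm_num, ← Real.rpow_natCast (1 - s) 2,
        ← Real.rpow_mul h1.le, one_div, ← Real.rpow_neg h1.le, div_eq_mul_inv,
        ← Real.rpow_neg h1.le, mul_left_comm, ← Real.rpow_add h1]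
      norm_num
  · intro s hs t ht hst
    have h1 : (1 : ℝ) - s ≠ 0 := by
      have := hs.2
      linarith
    have h2 : (1 : ℝ) - t ≠ 0 := by
      have := ht.2
      linarith
    have h3 : s / (1 - s) = t / (1 - t) := hst
    rw [div_eq_div_iff h1 h2] at h3
    linarith
  · have h1 : (1 : ℝ) - s ≠ 0 := by
      have := hs.2
      linarith
    have h2 : HasDerivAt (fun s : ℝ => s / (1 - s)) ((1 * (1 - s) - s * (0 - 1)) / (1 - s) ^ 2) s :=
      (hasDerivAt_id s).div ((hasDerivAt_const s (1 : ℝ)).sub (hasDerivAt_id s)) h1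
    have e : (1 * (1 - s) - s * (0 - 1)) / (1 - s) ^ 2 = 1 / (1 - s) ^ 2 := by
      rw [show (1 * (1 - s) - s * (0 - 1)) = 1 by ring]
    rw [e] at h2
    exact h2.hasDerivWithinAt

end Pool.Agent.H50.AS
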