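import Pool.Agent.H82.AS.Targets

set_option autoImplicit false

open Pool.Agent.H38.RB Pool.Agent.H38.PS Pool.Agent.H82.AS

namespace Pool.Agent.H50.AS

theorem eq_or_neg {u v u' v' : ℤ} (h1 : IsCoprime u v) (h2 : IsCoprime u' v') (hu : u ≠ 0)
    (h : u * v' = v * u') : (u', v') = (u, v) ∨ (u', v') = (-u, -v) := by
  have h3 : u ∣ u' := h1.dvd_of_dvd_mul_left ⟨v', h.symm⟩
  have h4 : u' ∣ u := h2.dvd_of_dvd_mul_right ⟨v, by rw [h]; ring⟩
  have h5 : u.natAbs = u'.natAbs :=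
    Nat.dvd_antisymm (Int.natAbs_dvd_natAbs.2 h3) (Int.natAbs_dvd_natAbs.2 h4)
  rcases Int.natAbs_eq_natAbs_iff.1 h5 with h6 | h6
  · left
    subst h6
    have : v' = v := by
      apply mul_left_cancel₀ hu
      rw [h]; ring
    rw [this]
  · right
    have h7 : u' = -u := by omega
    subst h7
    have : v' = -v := by
      apply mul_left_cancel₀ hu
      rw [h]; ring
    rw [this]

theorem pf_PGN : T_PGN := by
  classical
  intro F D A B hD hA hB hF hdet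
  have hD' : (0 : ℝ) < D := by exact_mod_cast hD
  let g : ℤ × ℤ → ℤ := fun P => ⌊(P.2 : ℝ) / P.1 * (A ^ 2 / D)⌋
  have hne : ∀ P ∈ F, P.1 ≠ 0 := by
    intro P hP h0
    have h1 := (hF P hP).2.1
    rw [h0] at h1
    simp only [Int.cast_zero, abs_zero] at h1
    linarith
  have hsl : ∀ P ∈ F, |(P.2 : ℝ) / P.1 * (A ^ 2 / D)| ≤ 2 * A * B / D := by
    intro P hP
    obtain ⟨-, h1, -, h3⟩ := hF P hP
    have h4 : 0 < |(P.1 : ℝ)| := by linarith
    rw [abs_mul, abs_div, abs_of_nonneg (show (0 : ℝ) ≤ A ^ 2 / D by positivity)]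
    have h5 : |(P.2 : ℝ)| / |(P.1 : ℝ)| ≤ 2 * B / A := by
      rw [div_le_div_iff₀ h4 hA]
      nlinarith
    calc |(P.2 : ℝ)| / |(P.1 : ℝ)| * (A ^ 2 / D) ≤ 2 * B / A * (A ^ 2 / D) :=
          mul_le_mul_of_nonneg_right h5 (by positivity)
      _ = 2 * A * B / D := by field_simp
  have hmap : ∀ P ∈ F, g P ∈ Finset.Icc ⌊-(2 * A * B / (D : ℝ))⌋ ⌊2 * A * B / (D : ℝ)⌋ := by
    intro P hP
    have h1 := abs_le.1 (hsl P hP)
    exact Finset.mem_Icc.2 ⟨Int.floor_le_floor h1.1, Int.floor_le_floor h1.2⟩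
  have hfib : ∀ b ∈ Finset.Icc ⌊-(2 * A * B / (D : ℝ))⌋ ⌊2 * A * B / (D : ℝ)⌋,
      (F.filter (fun P => g P = b)).card ≤ 2 := by
    intro b _
    rcases (F.filter (fun P => g P = b)).eq_empty_or_nonempty with h0 | ⟨P, hP⟩
    · rw [h0]
      simp
    obtain ⟨hP1, hP2⟩ := Finset.mem_filter.1 hP
    have hsub : F.filter (fun P => g P = b) ⊆ {P, (-P.1, -P.2)} := by
      intro Q hQ
      obtain ⟨hQ1, hQ2⟩ := Finset.mem_filter.1 hQ
      obtain ⟨cP, p1, p2, p3⟩ := hF P hP1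
      obtain ⟨cQ, q1, q2, q3⟩ := hF Q hQ1
      have hp : (P.1 : ℝ) ≠ 0 := Int.cast_ne_zero.2 (hne P hP1)
      have hq : (Q.1 : ℝ) ≠ 0 := Int.cast_ne_zero.2 (hne Q hQ1)
      have h1 : |(P.2 : ℝ) / P.1 * (A ^ 2 / D) - (Q.2 : ℝ) / Q.1 * (A ^ 2 / D)| < 1 :=
        Int.abs_sub_lt_one_of_floor_eq_floor (hP2.trans hQ2.symm)
      have h2 : |(P.1 : ℝ) * Q.2 - P.2 * Q.1| < D := by
        have e1 : (P.1 : ℝ) * Q.2 - P.2 * Q.1 = -((P.1 : ℝ) * Q.1 * (D / A ^ 2)) *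
            ((P.2 : ℝ) / P.1 * (A ^ 2 / D) - (Q.2 : ℝ) / Q.1 * (A ^ 2 / D)) := by
          field_simp
          ring
        rw [e1, abs_mul, abs_neg, abs_mul, abs_mul,
          abs_of_nonneg (show (0 : ℝ) ≤ D / A ^ 2 by positivity)]
        have h3 : |(P.1 : ℝ)| * |(Q.1 : ℝ)| ≤ A ^ 2 := by
          rw [pow_two]
          exact mul_le_mul p2 q2 (abs_nonneg _) hA.le
        have h4 : |(P.1 : ℝ)| * |(Q.1 : ℝ)| * (D / A ^ 2) ≤ D := by
          calc |(P.1 : ℝ)| * |(Q.1 : ℝ)| * (D / A ^ 2) ≤ A ^ 2 * (D / A ^ 2) :=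
                mul_le_mul_of_nonneg_right h3 (by positivity)
            _ = D := by field_simp
        have h5 : 0 < |(P.1 : ℝ)| * |(Q.1 : ℝ)| * (D / A ^ 2) := by
          have := abs_pos.2 hp
          have := abs_pos.2 hq
          positivity
        calc _ < |(P.1 : ℝ)| * |(Q.1 : ℝ)| * (D / A ^ 2) * 1 := mul_lt_mul_of_pos_left h1 h5
          _ ≤ D := by rw [mul_one]; exact h4
      have h3 : |P.1 * Q.2 - P.2 * Q.1| < (D : ℤ) := by
        have : (|P.1 * Q.2 - P.2 * Q.1| : ℝ) < ((D : ℤ) : ℝ) := by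
          push_cast
          exact h2
        exact_mod_cast this
      have h4 : P.1 * Q.2 - P.2 * Q.1 = 0 :=
        Int.eq_zero_of_abs_lt_dvd (hdet P hP1 Q hQ1) h3
      rcases eq_or_neg cP cQ (hne P hP1) (by linarith : P.1 * Q.2 = P.2 * Q.1) with h5 | h5
      · exact Finset.mem_insert.2 (Or.inl h5)
      · exact Finset.mem_insert.2 (Or.inr (Finset.mem_singleton.2 h5))
    exact (Finset.card_le_card hsub).trans Finset.card_le_two
  have h1 := Finset.card_le_mul_card_image_of_maps_to hmap 2 hfib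
  have h2 : ((Finset.Icc ⌊-(2 * A * B / (D : ℝ))⌋ ⌊2 * A * B / (D : ℝ)⌋).card : ℝ) ≤
      4 * A * B / D + 2 := by
    rw [Int.card_Icc]
    have e1 : (0 : ℤ) ≤ ⌊2 * A * B / (D : ℝ)⌋ + 1 - ⌊-(2 * A * B / (D : ℝ))⌋ := by
      have : ⌊-(2 * A * B / (D : ℝ))⌋ ≤ ⌊2 * A * B / (D : ℝ)⌋ := Int.floor_le_floor (by
        have : 0 ≤ 2 * A * B / (D : ℝ) := by positivity
        linarith)
      omega
    have e2 : (((⌊2 * A * B / (D : ℝ)⌋ + 1 - ⌊-(2 * A * B / (D : ℝ))⌋).toNat : ℤ) : ℝ) =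
        ((⌊2 * A * B / (D : ℝ)⌋ + 1 - ⌊-(2 * A * B / (D : ℝ))⌋ : ℤ) : ℝ) := by
      rw [Int.toNat_of_nonneg e1]
    rw [Int.cast_natCast] at e2
    rw [e2]
    push_cast
    have e3 := Int.floor_le (2 * A * B / (D : ℝ))
    have e4 := Int.sub_one_lt_floor (-(2 * A * B / (D : ℝ)))
    have e5 : 4 * A * B / (D : ℝ) = 2 * A * B / D + 2 * A * B / D := by ring
    linarith
  have h3 : (F.card : ℝ) ≤ 2 * (Finset.Icc ⌊-(2 * A * B / (D : ℝ))⌋ ⌊2 * A * B / (D : ℝ)⌋).card := by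
    exact_mod_cast h1
  have h4 : 0 ≤ A * B / (D : ℝ) := by positivity
  have h5 : 4 * A * B / (D : ℝ) = 4 * (A * B / D) := by ring
  have h6 : 16 * A * B / (D : ℝ) = 16 * (A * B / D) := by ring
  rw [h6]
  rw [h5] at h2
  linarith

end Pool.Agent.H50.AS
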